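import Pool.Agent.H215R4.Main

/-!
# The splinter locus of an excellent ring need not be open

There are a principal ideal domain `D` of characteristic zero and a finitely generated
`D`-algebra `R`, a normal domain, such that the set of primes `𝔭` of `R` with `R_𝔭` a splinter
is not open in `Spec R`.  (A finitely generated algebra over a Dedekind domain of characteristic
zero is excellent, EGA IV 7.8.3; this standard fact is not formalised here.)
-/

set_option autoImplicit false

namespace Pool.Agent.Results.MP_124696_ag.SplinterLocusNotOpen

open H215R4

theorem result : ∃ (D : Type) (_ : CommRing D) (_ : IsDomain D) (R : Type) (_ : CommRing R)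
    (_ : IsDomain R) (_ : Algebra D R),
    IsPrincipalIdealRing D ∧ CharZero D ∧ Algebra.FiniteType D R ∧ IsIntegrallyClosed R ∧
    ¬ IsOpen {𝔭 : PrimeSpectrum R | IsSplinter (Localization.AtPrime 𝔭.asIdeal)} :=
  main

end Pool.Agent.Results.MP_124696_ag.SplinterLocusNotOpen
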